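import Pool.Agent.Helper10.TRI.Defs

/-!
# T-TRI, D2: monic irreducible factors with common denominator
-/

set_option autoImplicit false

namespace Pool.Agent.Helper29.TRI

open NumberField Polynomial Pool.Agent.Helper4.CB

/-- a common denominator which is a natural number -/
theorem exists_nat_denom {K : Type} [Field K] [NumberField K] (S : Finset K) :
    ∃ N : ℕ, N ≠ 0 ∧ ∀ x ∈ S, ∃ y : 𝓞 K, (y : K) = (N : K) * x := by
  obtain ⟨b, hb⟩ := IsLocalization.exist_integer_multiples_of_finset (nonZeroDivisors (𝓞 K)) S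
  have hb0 : (b : 𝓞 K) ≠ 0 := nonZeroDivisors.coe_ne_zero b
  have hN0 : Ideal.absNorm (Ideal.span {(b : 𝓞 K)}) ≠ 0 := by
    rw [Ne, Ideal.absNorm_eq_zero_iff, Ideal.span_singleton_eq_bot]
    exact hb0
  refine ⟨Ideal.absNorm (Ideal.span {(b : 𝓞 K)}), hN0, fun x hx => ?_⟩
  obtain ⟨y, hy⟩ := hb x hx
  obtain ⟨c, hc⟩ := Ideal.mem_span_singleton.1 (Ideal.absNorm_mem (Ideal.span {(b : 𝓞 K)}))
  refine ⟨c * y, ?_⟩
  have h1 : ((Ideal.absNorm (Ideal.span {(b : 𝓞 K)}) : ℕ) : K) = (b : 𝓞 K) * (c : K) := by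
    have h2 := congrArg (fun t : 𝓞 K => (t : K)) hc
    simpa using h2
  rw [h1]
  have h3 : (y : K) = ((b : 𝓞 K) : K) * x := by
    have h4 := hy
    rw [Algebra.smul_def] at h4
    exact h4
  have h5 : ((c * y : 𝓞 K) : K) = (c : K) * (y : K) := map_mul _ _ _
  rw [h5]
  have h6 : (y : K) = ((b : 𝓞 K) : K) * x := h3
  calc (c : K) * (y : K) = (c : K) * (((b : 𝓞 K) : K) * x) := congrArg _ h6
    _ = _ := by ring

/-- Bezout relations over `K` give Bezout relations over `𝓞 K` with a natural constant -/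
theorem bezout {K : Type} [Field K] [NumberField K] {P P' : (𝓞 K)[X]}
    (h : IsCoprime (P.map (algebraMap (𝓞 K) K)) (P'.map (algebraMap (𝓞 K) K))) :
    ∃ m : ℕ, m ≠ 0 ∧ ∀ m2 : ℕ, m ∣ m2 → ∃ A B : (𝓞 K)[X], A * P + B * P' = C (m2 : 𝓞 K) := by
  obtain ⟨a, b, hab⟩ := h
  obtain ⟨c, hcm, hc⟩ := IsLocalization.integerNormalization_spec (nonZeroDivisors (𝓞 K)) a
  obtain ⟨d, hdm, hd⟩ := IsLocalization.integerNormalization_spec (nonZeroDivisors (𝓞 K)) b
  set a' := IsLocalization.integerNormalization (nonZeroDivisors (𝓞 K)) a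
  set b' := IsLocalization.integerNormalization (nonZeroDivisors (𝓞 K)) b
  have hinj : Function.Injective (Polynomial.map (algebraMap (𝓞 K) K)) :=
    Polynomial.map_injective _ (FaithfulSMul.algebraMap_injective (𝓞 K) K)
  have hc' : a'.map (algebraMap (𝓞 K) K) = C (c : K) * a := by
    rw [hc]
    ext i
    rw [coeff_C_mul, coeff_smul]
    rfl
  have hd' : b'.map (algebraMap (𝓞 K) K) = C (d : K) * b := by
    rw [hd]
    ext i
    rw [coeff_C_mul, coeff_smul]
    rfl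
  have e1 : C (d : 𝓞 K) * a' * P + C (c : 𝓞 K) * b' * P' = C ((c : 𝓞 K) * (d : 𝓞 K)) := by
    apply hinj
    simp only [Polynomial.map_add, Polynomial.map_mul, Polynomial.map_C, hc', hd', map_mul]
    linear_combination (C (c : K) * C (d : K)) * hab
  set e : 𝓞 K := (c : 𝓞 K) * (d : 𝓞 K) with he
  have he0 : e ≠ 0 := mul_ne_zero (nonZeroDivisors.ne_zero hcm) (nonZeroDivisors.ne_zero hdm)
  refine ⟨Ideal.absNorm (Ideal.span {e}), ?_, fun m2 hm2 => ?_⟩
  · rw [Ne, Ideal.absNorm_eq_zero_iff, Ideal.span_singleton_eq_bot]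
    exact he0
  · obtain ⟨n, rfl⟩ := hm2
    obtain ⟨f, hf⟩ := Ideal.mem_span_singleton.1 (Ideal.absNorm_mem (Ideal.span {e}))
    refine ⟨C (f * n) * (C (d : 𝓞 K) * a'), C (f * n) * (C (c : 𝓞 K) * b'), ?_⟩
    rw [Nat.cast_mul, hf]
    have e2 : C (e * f * (n : 𝓞 K)) = C (f * n) * C e := by
      rw [← C_mul]; congr 1; ring
    rw [e2, ← e1]
    ring

theorem derivative_scaleRoots' {K : Type} [Field K] [CharZero K] (f : K[X]) (s : K) :
    derivative (f.scaleRoots s) = (derivative f).scaleRoots s := by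
  ext i
  rw [coeff_derivative, coeff_scaleRoots, coeff_scaleRoots, coeff_derivative]
  rcases Nat.eq_zero_or_pos f.natDegree with h | h
  · rw [coeff_eq_zero_of_natDegree_lt (show f.natDegree < i + 1 by omega)]
    ring
  · rw [natDegree_derivative, show f.natDegree - 1 - i = f.natDegree - (i + 1) by omega]
    ring

theorem irreducible_scaleRoots {K : Type} [Field K] {f : K[X]} (hf : Irreducible f) {s : K}
    (hs : s ≠ 0) : Irreducible (f.scaleRoots s) := by
  have h0 : ∀ g : K[X], IsUnit (g.scaleRoots s⁻¹) → IsUnit g := by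
    intro g hg
    rw [isUnit_iff_degree_eq_zero] at hg ⊢
    rwa [degree_scaleRoots] at hg
  have hinv : (f.scaleRoots s).scaleRoots s⁻¹ = f := by
    rw [← scaleRoots_mul, mul_inv_cancel₀ hs, scaleRoots_one]
  refine ⟨fun h => hf.not_isUnit ?_, fun p q hpq => ?_⟩
  · rw [isUnit_iff_degree_eq_zero] at h ⊢
    rwa [degree_scaleRoots] at h
  · have h1 : f = p.scaleRoots s⁻¹ * q.scaleRoots s⁻¹ := by
      rw [← mul_scaleRoots_of_noZeroDivisors, ← hpq, hinv]
    rcases hf.isUnit_or_isUnit h1 with h | h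
    · exact Or.inl (h0 _ h)
    · exact Or.inr (h0 _ h)

/-- **D2.** the monic irreducible factors of finitely many polynomials, with common denominator `N`,
all discriminants and resultants divide a number -/
theorem exists_scaled {K : Type} [Field K] [NumberField K] (Q : Finset K[X])
    (hQ : ∀ f ∈ Q, f.Monic ∧ Irreducible f) : ∃ N m2 : ℕ, N ≠ 0 ∧ m2 ≠ 0 ∧ ∃ G : K[X] → (𝓞 K)[X],
      (∀ f ∈ Q, (G f).Monic ∧ (G f).natDegree = f.natDegree ∧
        (G f).map (algebraMap (𝓞 K) K) = f.scaleRoots (N : K) ∧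
        Irreducible ((G f).map (algebraMap (𝓞 K) K))) ∧
      (∀ f ∈ Q, ∃ A B : (𝓞 K)[X], A * G f + B * derivative (G f) = C (m2 : 𝓞 K)) ∧
      ∀ f ∈ Q, ∀ g ∈ Q, f ≠ g → ∃ A B : (𝓞 K)[X], A * G f + B * G g = C (m2 : 𝓞 K) := by
  classical
  obtain ⟨N, hN0, hN⟩ := exists_nat_denom
    (Q.biUnion fun f => (Finset.range (f.natDegree + 1)).image f.coeff)
  have hNK : (N : K) ≠ 0 := Nat.cast_ne_zero.2 hN0
  have hex : ∀ f ∈ Q, ∃ g : (𝓞 K)[X], g.Monic ∧ g.natDegree = f.natDegree ∧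
      g.map (algebraMap (𝓞 K) K) = f.scaleRoots (N : K) := by
    intro f hf
    have hfm := (hQ f hf).1
    have hl : f.scaleRoots (N : K) ∈ lifts (algebraMap (𝓞 K) K) := by
      rw [lifts_iff_coeff_lifts]
      intro i
      rw [coeff_scaleRoots]
      rcases lt_trichotomy i f.natDegree with h | h | h
      · obtain ⟨y, hy⟩ := hN (f.coeff i) (Finset.mem_biUnion.2 ⟨f, hf, Finset.mem_image.2
          ⟨i, Finset.mem_range.2 (by omega), rfl⟩⟩)
        refine ⟨y * (N : 𝓞 K) ^ (f.natDegree - i - 1), ?_⟩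
        have e1 : f.natDegree - i = (f.natDegree - i - 1) + 1 := by omega
        rw [map_mul, map_pow, map_natCast]
        have e2 : algebraMap (𝓞 K) K y = (N : K) * f.coeff i := hy
        rw [e2, e1, pow_succ]
        simp only [Nat.add_sub_cancel]
        ring
      · refine ⟨1, ?_⟩
        rw [h, Nat.sub_self, pow_zero, mul_one, map_one]
        exact hfm.symm
      · refine ⟨0, ?_⟩
        rw [coeff_eq_zero_of_natDegree_lt h, zero_mul, map_zero]
    obtain ⟨g, hg1, hg2, hg3⟩ := lifts_and_natDegree_eq_and_monic hl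
      ((monic_scaleRoots_iff (N : K)).2 hfm)
    exact ⟨g, hg3, by rw [hg2, natDegree_scaleRoots], hg1⟩
  choose! G hG1 hG2 hG3 using hex
  have hu : IsUnit (N : K) := hNK.isUnit
  have hsep : ∀ f ∈ Q, IsCoprime ((G f).map (algebraMap (𝓞 K) K))
      ((derivative (G f)).map (algebraMap (𝓞 K) K)) := by
    intro f hf
    rw [← derivative_map, hG3 f hf, derivative_scaleRoots']
    exact isCoprime_scaleRoots _ _ _ hu (hQ f hf).2.separable
  have hcop : ∀ f ∈ Q, ∀ g ∈ Q, f ≠ g → IsCoprime ((G f).map (algebraMap (𝓞 K) K))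
      ((G g).map (algebraMap (𝓞 K) K)) := by
    intro f hf g hg hne
    rw [hG3 f hf, hG3 g hg]
    refine isCoprime_scaleRoots _ _ _ hu ?_
    rw [(hQ f hf).2.coprime_iff_not_dvd]
    intro hdvd
    exact hne (eq_of_monic_of_associated (hQ f hf).1 (hQ g hg).1
      ((hQ f hf).2.associated_of_dvd (hQ g hg).2 hdvd))
  have h1 : ∀ f ∈ Q, ∃ m : ℕ, m ≠ 0 ∧ ∀ m2 : ℕ, m ∣ m2 →
      ∃ A B : (𝓞 K)[X], A * G f + B * derivative (G f) = C (m2 : 𝓞 K) :=
    fun f hf => bezout (hsep f hf)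
  have h2 : ∀ p ∈ Q ×ˢ Q, ∃ m : ℕ, m ≠ 0 ∧ (p.1 ≠ p.2 → ∀ m2 : ℕ, m ∣ m2 →
      ∃ A B : (𝓞 K)[X], A * G p.1 + B * G p.2 = C (m2 : 𝓞 K)) := by
    intro p hp
    obtain ⟨hp1, hp2⟩ := Finset.mem_product.1 hp
    by_cases hne : p.1 = p.2
    · exact ⟨1, one_ne_zero, fun h => absurd hne h⟩
    · obtain ⟨m, hm, h⟩ := bezout (hcop _ hp1 _ hp2 hne)
      exact ⟨m, hm, fun _ => h⟩
  choose! m hm0 hm using h1
  choose! m' hm0' hm' using h2
  refine ⟨N, (∏ f ∈ Q, m f) * ∏ p ∈ Q ×ˢ Q, m' p, hN0,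
    mul_ne_zero (Finset.prod_ne_zero_iff.2 hm0) (Finset.prod_ne_zero_iff.2 hm0'), G,
    fun f hf => ⟨hG1 f hf, hG2 f hf, hG3 f hf, by
      rw [hG3 f hf]; exact irreducible_scaleRoots (hQ f hf).2 hNK⟩, fun f hf => ?_, fun f hf g hg hne => ?_⟩
  · exact hm f hf _ (Dvd.dvd.mul_right (Finset.dvd_prod_of_mem m hf) _)
  · exact hm' (f, g) (Finset.mk_mem_product hf hg) hne _
      (Dvd.dvd.mul_left (Finset.dvd_prod_of_mem m' (Finset.mk_mem_product hf hg)) _)

end Pool.Agent.Helper29.TRI
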